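import Mathlib

/-!
# Jellium with a short-range potential: basic analysis of the Coulomb potential of a domain
-/

set_option autoImplicit false

noncomputable section

namespace Pool.Agent.X181.JE

open MeasureTheory Metric Set Filter Topology
open scoped ENNReal Pointwise

abbrev E3 := EuclideanSpace ℝ (Fin 3)

/-- The potential `φ(x) = ∫_Λ |x - y|⁻¹ dy`. -/
def phi (Λ : Set E3) (x : E3) : ℝ := ∫ y in Λ, ‖x - y‖⁻¹

/-- The jellium energy `U_{ρ,Λ}(X)`. -/
def jelliumU (ρ : ℝ) (Λ : Set E3) {N : ℕ} (X : Fin N → E3) : ℝ :=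
  (∑ i, ∑ j ∈ Finset.Ioi i, ‖X i - X j‖⁻¹) - ρ * ∑ i, phi Λ (X i)
    + 1 / 2 * ρ ^ 2 * ∫ x in Λ, phi Λ x

/-- The pair energy `∑_{i<j} v(x_i - x_j)`. -/
def pairV (v : E3 → ℝ) {N : ℕ} (X : Fin N → E3) : ℝ :=
  ∑ i, ∑ j ∈ Finset.Ioi i, v (X i - X j)

/-- truncated Coulomb kernel -/
def kA (a : ℝ) : E3 → ℝ := (ball (0 : E3) a).indicator (fun y => ‖y‖⁻¹)

lemma kA_nonneg (a : ℝ) (y : E3) : 0 ≤ kA a y := by
  unfold kA
  exact indicator_nonneg (fun _ _ => by positivity) _

lemma kA_integrable (a : ℝ) : Integrable (kA a) (volume : Measure E3) := by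
  unfold kA
  rw [integrable_indicator_iff measurableSet_ball]
  have h := (integrableOn_fun_norm_addHaar (volume : Measure E3) (f := fun t : ℝ => t⁻¹)
    (r := a)).2 ?_
  · exact h
  · have hd : Module.finrank ℝ E3 - 1 = 2 := by simp
    rw [hd]
    have h2 : IntegrableOn (fun y : ℝ => y) (Ioo 0 a) volume :=
      (continuous_id.integrableOn_Icc (a := 0) (b := a)).mono_set Ioo_subset_Icc_self
    refine h2.congr_fun ?_ measurableSet_Ioo
    intro y hy
    have : y ≠ 0 := hy.1.ne'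
    simp only [smul_eq_mul]
    field_simp

lemma inv_le_kA {a : ℝ} (ha : 0 < a) (z : E3) : ‖z‖⁻¹ ≤ kA a z + a⁻¹ := by
  unfold kA
  by_cases h : z ∈ ball (0 : E3) a
  · rw [indicator_of_mem h]
    have : 0 ≤ a⁻¹ := by positivity
    linarith
  · rw [indicator_of_notMem h, zero_add]
    have h1 : a ≤ ‖z‖ := by
      simpa using h
    exact inv_anti₀ ha h1

/-- the constant `∫_{|y|<a} 1/|y|` -/
def kc (a : ℝ) : ℝ := ∫ y, kA a y

lemma kc_nonneg (a : ℝ) : 0 ≤ kc a := integral_nonneg (kA_nonneg a)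

lemma integrableOn_dom {Λ : Set E3} (hΛ : volume Λ ≠ ∞) (a : ℝ) (x : E3) :
    IntegrableOn (fun y => kA a (x - y) + a⁻¹) Λ volume := by
  refine Integrable.add ?_ ?_
  · exact ((kA_integrable a).comp_sub_left x).integrableOn
  · exact integrableOn_const hΛ

lemma integrableOn_inv {Λ : Set E3} (hΛ : volume Λ ≠ ∞) (x : E3) :
    IntegrableOn (fun y => ‖x - y‖⁻¹) Λ volume := by
  refine (integrableOn_dom hΛ 1 x).mono' ?_ ?_
  · exact (by fun_prop : Measurable (fun y : E3 => ‖x - y‖⁻¹)).aestronglyMeasurable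
  · refine Eventually.of_forall fun y => ?_
    rw [Real.norm_of_nonneg (by positivity)]
    exact inv_le_kA one_pos _

lemma phi_nonneg (Λ : Set E3) (x : E3) : 0 ≤ phi Λ x :=
  integral_nonneg fun _ => by positivity

lemma phi_le {Λ : Set E3} (hΛ : volume Λ ≠ ∞) {a : ℝ} (ha : 0 < a) (x : E3) :
    phi Λ x ≤ kc a + a⁻¹ * volume.real Λ := by
  have h1 : phi Λ x ≤ ∫ y in Λ, (kA a (x - y) + a⁻¹) :=
    integral_mono (integrableOn_inv hΛ x) (integrableOn_dom hΛ a x)
      (fun y => inv_le_kA ha (x - y))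
  have h2 : ∫ y in Λ, (kA a (x - y) + a⁻¹) = (∫ y in Λ, kA a (x - y)) + a⁻¹ * volume.real Λ := by
    rw [integral_add ((kA_integrable a).comp_sub_left x).integrableOn (integrableOn_const hΛ)]
    congr 1
    simp [mul_comm]
  have h3 : (∫ y in Λ, kA a (x - y)) ≤ ∫ y, kA a (x - y) :=
    setIntegral_le_integral ((kA_integrable a).comp_sub_left x)
      (Eventually.of_forall fun y => kA_nonneg a _)
  have h4 : ∫ y, kA a (x - y) = kc a := by
    unfold kc
    exact integral_sub_left_eq_self (kA a) volume x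
  linarith

lemma phi_mono {Λ₁ Λ₂ : Set E3} (h : Λ₁ ⊆ Λ₂) (h2 : volume Λ₂ ≠ ∞) (x : E3) :
    phi Λ₁ x ≤ phi Λ₂ x :=
  setIntegral_mono_set (integrableOn_inv h2 x) (Eventually.of_forall fun _ => by positivity)
    (Eventually.of_forall h)

lemma measurable_phi (Λ : Set E3) : Measurable (phi Λ) := by
  have h : StronglyMeasurable (fun p : E3 × E3 => ‖p.1 - p.2‖⁻¹) :=
    (by fun_prop : Measurable (fun p : E3 × E3 => ‖p.1 - p.2‖⁻¹)).stronglyMeasurable
  exact (h.integral_prod_right (ν := volume.restrict Λ)).measurable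

/-- volume of the ball of radius `R` -/
def Vb (R : ℝ) : ℝ := volume.real (ball (0 : E3) R)

/-- self energy of the background in a ball (twice) -/
def Wb (R : ℝ) : ℝ := ∫ x in ball (0 : E3) R, phi (ball (0 : E3) R) x

lemma ball_fin (R : ℝ) : volume (ball (0 : E3) R) ≠ ∞ := measure_ball_lt_top.ne

lemma Vb_one_pos : 0 < Vb 1 := by
  unfold Vb
  rw [Measure.real, ENNReal.toReal_pos_iff]
  exact ⟨measure_ball_pos _ _ one_pos, measure_ball_lt_top⟩

lemma setInt_scale (r : ℝ) (hr : 0 < r) (f : E3 → ℝ) :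
    ∫ x in ball (0 : E3) r, f x = r ^ 3 * ∫ x in ball (0 : E3) 1, f (r • x) := by
  have h := MeasureTheory.Measure.setIntegral_comp_smul (volume : Measure E3) f
    (s := ball (0 : E3) 1) hr.ne'
  have hb : r • ball (0 : E3) (1 : ℝ) = ball (0 : E3) r := by
    rw [_root_.smul_ball hr.ne', smul_zero, mul_one, Real.norm_of_nonneg hr.le]
  rw [hb] at h
  have hd : Module.finrank ℝ E3 = 3 := by simp
  rw [hd, abs_of_nonneg (by positivity), smul_eq_mul] at h
  rw [h]
  field_simp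

lemma Vb_eq {r : ℝ} (hr : 0 < r) : Vb r = r ^ 3 * Vb 1 := by
  have h := setInt_scale r hr (fun _ => 1)
  simpa [Vb] using h

lemma Vb_pos {r : ℝ} (hr : 0 < r) : 0 < Vb r := by
  rw [Vb_eq hr]
  have := Vb_one_pos
  positivity

lemma phi_scale {r : ℝ} (hr : 0 < r) (x : E3) :
    phi (ball (0 : E3) r) (r • x) = r ^ 2 * phi (ball (0 : E3) 1) x := by
  unfold phi
  rw [setInt_scale r hr]
  have : ∀ y : E3, ‖r • x - r • y‖⁻¹ = r⁻¹ * ‖x - y‖⁻¹ := by
    intro y
    rw [← smul_sub, norm_smul, Real.norm_of_nonneg hr.le, mul_inv]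
  simp_rw [this]
  rw [integral_const_mul]
  field_simp

lemma Wb_eq {r : ℝ} (hr : 0 < r) : Wb r = r ^ 5 * Wb 1 := by
  unfold Wb
  rw [setInt_scale r hr]
  simp_rw [phi_scale hr]
  rw [integral_const_mul]
  ring

lemma Wb_nonneg (r : ℝ) : 0 ≤ Wb r := integral_nonneg fun _ => phi_nonneg _ _

lemma Wb_ratio {r₁ r₂ : ℝ} (h1 : 0 < r₁) (h12 : r₁ ≤ r₂) :
    Wb r₂ / Vb r₂ ^ 2 ≤ Wb r₁ / Vb r₁ ^ 2 := by
  have h2 : 0 < r₂ := h1.trans_le h12
  have key : ∀ r : ℝ, 0 < r → Wb r / Vb r ^ 2 = (Wb 1 / Vb 1 ^ 2) * r⁻¹ := by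
    intro r hr
    have := Vb_one_pos
    rw [Wb_eq hr, Vb_eq hr]
    field_simp
  rw [key _ h1, key _ h2]
  have hW := Wb_nonneg 1
  have hV := Vb_one_pos
  gcongr

lemma Wb_le {r : ℝ} : Wb r ≤ (kc 1 + Vb r) * Vb r := by
  unfold Wb
  have hfin := ball_fin r
  have h1 : ∀ x, phi (ball (0 : E3) r) x ≤ kc 1 + Vb r := by
    intro x
    have := phi_le hfin one_pos x
    simpa [Vb] using this
  have hint : IntegrableOn (phi (ball (0 : E3) r)) (ball (0 : E3) r) volume := by
    refine (integrableOn_const (C := kc 1 + Vb r) hfin).mono'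
      (measurable_phi _).aestronglyMeasurable ?_
    refine Eventually.of_forall fun y => ?_
    rw [Real.norm_of_nonneg (phi_nonneg _ _)]
    exact h1 y
  calc ∫ x in ball (0 : E3) r, phi (ball (0 : E3) r) x
      ≤ ∫ x in ball (0 : E3) r, (kc 1 + Vb r) :=
        integral_mono hint (integrableOn_const hfin) h1
    _ = (kc 1 + Vb r) * Vb r := by
        simp [Vb, mul_comm]

lemma integrableOn_phi {Λ : Set E3} (hΛ : volume Λ ≠ ∞) (r : ℝ) :
    IntegrableOn (phi Λ) (ball (0 : E3) r) volume := by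
  refine (integrableOn_const (C := kc 1 + 1⁻¹ * volume.real Λ) (ball_fin r)).mono'
      (measurable_phi _).aestronglyMeasurable ?_
  refine Eventually.of_forall fun y => ?_
  rw [Real.norm_of_nonneg (phi_nonneg _ _)]
  exact phi_le hΛ one_pos y

/-- For large volumes the potential is at most `ε` times the volume. -/
lemma phi_small {ε : ℝ} (hε : 0 < ε) : ∃ V₀ : ℝ, ∀ r : ℝ, V₀ ≤ Vb r → ∀ x,
    phi (ball (0 : E3) r) x ≤ ε * Vb r := by
  refine ⟨2 / ε * kc (2 / ε), fun r hr x => ?_⟩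
  have h := phi_le (ball_fin r) (a := 2 / ε) (by positivity) x
  have h2 : kc (2 / ε) ≤ ε / 2 * Vb r := by
    have := mul_le_mul_of_nonneg_left hr (by positivity : (0:ℝ) ≤ ε / 2)
    calc kc (2 / ε) = ε / 2 * (2 / ε * kc (2 / ε)) := by field_simp
      _ ≤ _ := this
  have h3 : (2 / ε)⁻¹ * volume.real (ball (0 : E3) r) = ε / 2 * Vb r := by
    simp [Vb]
  rw [h3] at h
  linarith

/-! ### null sets -/

lemma map_sub_ac {N : ℕ} {i j : Fin N} (hij : i ≠ j) :
    Measure.QuasiMeasurePreserving (fun X : Fin N → E3 => X i - X j) volume volume := by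
  let L : (Fin N → E3) →ₗ[ℝ] E3 :=
    LinearMap.proj (R := ℝ) (φ := fun _ : Fin N => E3) i - LinearMap.proj j
  have hL : Function.Surjective L := by
    intro z
    refine ⟨Pi.single i z, ?_⟩
    simp [L, Pi.single_eq_of_ne hij.symm]
  obtain ⟨c, -, hc⟩ := L.exists_map_addHaar_eq_smul_addHaar
    (volume : Measure (Fin N → E3)) (volume : Measure E3) hL
  have hfun : (fun X : Fin N → E3 => X i - X j) = L := by
    funext X
    simp [L]
  refine ⟨by fun_prop, ?_⟩
  rw [hfun, hc]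
  exact Measure.smul_absolutelyContinuous

lemma ae_inj (N : ℕ) : ∀ᵐ X : Fin N → E3, Function.Injective X := by
  have h : ∀ i j : Fin N, ∀ᵐ X : Fin N → E3, i ≠ j → X i ≠ X j := by
    intro i j
    by_cases hij : i = j
    · simp [hij]
    · have h0 : ∀ᵐ z : E3, z ≠ 0 := by
        simp [ae_iff]
      filter_upwards [(map_sub_ac hij).ae h0] with X hX _ h2
      exact hX (by rw [h2, sub_self])
  have h2 : ∀ᵐ X : Fin N → E3, ∀ i j : Fin N, i ≠ j → X i ≠ X j := by
    rw [ae_all_iff]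
    intro i
    rw [ae_all_iff]
    intro j
    exact h i j
  filter_upwards [h2] with X hX i j hij
  by_contra hne
  exact hX i j hne hij

end Pool.Agent.X181.JE
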