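import Mathlib

/-!
# Combinatorial identities for pair sums and two abstract inequalities of Jensen type
-/

set_option autoImplicit false

noncomputable section

namespace Pool.Agent.X181.JE

open MeasureTheory Metric Set Filter Topology
open scoped ENNReal Pointwise

/-- sum over pairs -/
def pr {N : ℕ} (a : Fin N → Fin N → ℝ) : ℝ := ∑ i, ∑ j ∈ Finset.Ioi i, a i j

lemma two_pr {N : ℕ} (a : Fin N → Fin N → ℝ) (hs : ∀ i j, a i j = a j i) :
    2 * pr a = ∑ i, ∑ j, a i j - ∑ i, a i i := by
  have h1 : ∀ i j : Fin N, a i j = (if i < j then a i j else 0) + (if j < i then a i j else 0)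
      + (if i = j then a i j else 0) := by
    intro i j
    rcases lt_trichotomy i j with h | h | h
    · simp [h, h.not_gt, h.ne]
    · simp [h]
    · simp [h, h.not_gt, h.ne']
  have h2 : ∑ i, ∑ j, a i j = (∑ i, ∑ j, if i < j then a i j else 0)
      + (∑ i, ∑ j, if j < i then a i j else 0) + ∑ i, ∑ j, if i = j then a i j else 0 := by
    rw [← Finset.sum_add_distrib, ← Finset.sum_add_distrib]
    refine Finset.sum_congr rfl fun i _ => ?_
    rw [← Finset.sum_add_distrib, ← Finset.sum_add_distrib]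
    exact Finset.sum_congr rfl fun j _ => h1 i j
  have h3 : (∑ i, ∑ j, if i < j then a i j else 0) = pr a := by
    unfold pr
    refine Finset.sum_congr rfl fun i _ => ?_
    rw [← Finset.sum_filter]
    congr 1
    ext j
    simp
  have h4 : (∑ i, ∑ j, if j < i then a i j else 0) = pr a := by
    rw [Finset.sum_comm, ← h3]
    refine Finset.sum_congr rfl fun i _ => Finset.sum_congr rfl fun j _ => ?_
    rw [hs j i]
  have h5 : (∑ i, ∑ j, if i = j then a i j else 0) = ∑ i, a i i := by
    refine Finset.sum_congr rfl fun i _ => ?_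
    simp
  rw [h2, h3, h4, h5]
  ring

lemma pr_removeNth {N : ℕ} (a : Fin (N + 1) → Fin (N + 1) → ℝ) (hs : ∀ i j, a i j = a j i)
    (i : Fin (N + 1)) :
    pr (fun j k => a (i.succAbove j) (i.succAbove k)) = pr a - (∑ k, a i k - a i i) := by
  have h1 := two_pr a hs
  have h2 := two_pr (fun j k => a (i.succAbove j) (i.succAbove k)) (fun _ _ => hs _ _)
  have h3 : ∀ j, ∑ k, a j k = a j i + ∑ k, a j (i.succAbove k) := fun j =>
    Fin.sum_univ_succAbove _ i
  have h4 : ∑ j, ∑ k, a j k = ∑ k, a i k + ∑ j, ∑ k, a (i.succAbove j) k :=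
    Fin.sum_univ_succAbove _ i
  have h5 : ∑ j, a j j = a i i + ∑ j, a (i.succAbove j) (i.succAbove j) :=
    Fin.sum_univ_succAbove _ i
  have h6 : ∑ j, ∑ k, a (i.succAbove j) k
      = ∑ j, a (i.succAbove j) i + ∑ j, ∑ k, a (i.succAbove j) (i.succAbove k) := by
    rw [← Finset.sum_add_distrib]
    exact Finset.sum_congr rfl fun j _ => h3 _
  have h7 : ∑ j, a j i = a i i + ∑ j, a (i.succAbove j) i := Fin.sum_univ_succAbove _ i
  have h8 : ∑ j, a j i = ∑ k, a i k := Finset.sum_congr rfl fun j _ => hs _ _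
  linarith

lemma sum_pr_removeNth {N : ℕ} (a : Fin (N + 1) → Fin (N + 1) → ℝ) (hs : ∀ i j, a i j = a j i) :
    ∑ i : Fin (N + 1), pr (fun j k => a (i.succAbove j) (i.succAbove k))
      = ((N : ℝ) - 1) * pr a := by
  have h1 := two_pr a hs
  have h2 : ∑ i : Fin (N + 1), pr (fun j k => a (i.succAbove j) (i.succAbove k))
      = ∑ i : Fin (N + 1), (pr a - (∑ k, a i k - a i i)) :=
    Finset.sum_congr rfl fun i _ => pr_removeNth a hs i
  rw [h2, Finset.sum_sub_distrib, Finset.sum_sub_distrib, Finset.sum_const, Finset.card_univ,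
    Fintype.card_fin, nsmul_eq_mul]
  push_cast
  linarith

lemma sum_sum_removeNth {N : ℕ} (f : Fin (N + 1) → ℝ) :
    ∑ i : Fin (N + 1), ∑ j, f (i.succAbove j) = (N : ℝ) * ∑ i, f i := by
  have h : ∀ i : Fin (N + 1), ∑ j, f (i.succAbove j) = ∑ k, f k - f i := by
    intro i
    rw [Fin.sum_univ_succAbove f i]
    ring
  rw [Finset.sum_congr rfl fun i _ => h i, Finset.sum_sub_distrib, Finset.sum_const,
    Finset.card_univ, Fintype.card_fin, nsmul_eq_mul]
  push_cast
  ring

variable {E : Type} [MeasurableSpace E] (μ : Measure E) [IsFiniteMeasure μ]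

/-- deleting a coordinate -/
def del {N : ℕ} (i : Fin (N + 1)) (X : Fin (N + 1) → E) : Fin N → E :=
  fun j => X (i.succAbove j)

lemma int_del {N : ℕ} (i : Fin (N + 1)) (f : (Fin N → E) → ℝ) :
    ∫ X, f (del i X) ∂(Measure.pi fun _ : Fin (N + 1) => μ)
      = μ.real univ * ∫ Y, f Y ∂(Measure.pi fun _ : Fin N => μ) := by
  have hmp := measurePreserving_piFinSuccAbove (fun _ : Fin (N + 1) => μ) i
  have h1 := hmp.integral_comp' (fun p : E × (Fin N → E) => f p.2)
  have h2 := integral_fun_snd (μ := μ) (ν := Measure.pi fun _ : Fin N => μ) f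
  rw [smul_eq_mul] at h2
  rw [← h2, ← h1]
  rfl

lemma integrable_del {N : ℕ} (i : Fin (N + 1)) {f : (Fin N → E) → ℝ}
    (hf : Integrable f (Measure.pi fun _ : Fin N => μ)) :
    Integrable (fun X => f (del i X)) (Measure.pi fun _ : Fin (N + 1) => μ) := by
  have hmp := measurePreserving_piFinSuccAbove (fun _ : Fin (N + 1) => μ) i
  have h1 := hmp.integrable_comp_emb (g := fun p : E × (Fin N → E) => f p.2)
    (MeasurableEquiv.measurableEmbedding _)
  exact h1.2 (hf.comp_snd μ)

/-- Insertion of a particle. -/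
lemma insertion {N : ℕ} {β : ℝ} (hβ : 0 < β) (H' : (Fin (N + 1) → E) → ℝ) (H : (Fin N → E) → ℝ)
    (D : E → (Fin N → E) → ℝ) (hH : ∀ X, H' X = H (del 0 X) + D (X 0) (del 0 X))
    (hi' : Integrable (fun X => Real.exp (-β * H' X)) (Measure.pi fun _ : Fin (N + 1) => μ))
    (hi : Integrable (fun X => Real.exp (-β * H X)) (Measure.pi fun _ : Fin N => μ))
    (hD : ∀ Y, Integrable (fun x => D x Y) μ) (M : ℝ)
    (hM : ∀ Y, ∫ x, D x Y ∂μ ≤ M * μ.real univ) :
    μ.real univ * Real.exp (-β * M) *
        ∫ Y, Real.exp (-β * H Y) ∂(Measure.pi fun _ : Fin N => μ)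
      ≤ ∫ X, Real.exp (-β * H' X) ∂(Measure.pi fun _ : Fin (N + 1) => μ) := by
  have hmp := measurePreserving_piFinSuccAbove (fun _ : Fin (N + 1) => μ) 0
  set F : E × (Fin N → E) → ℝ := fun p => Real.exp (-β * (H p.2 + D p.1 p.2)) with hF
  have hFe : ∀ X : Fin (N + 1) → E,
      F (MeasurableEquiv.piFinSuccAbove (fun _ : Fin (N + 1) => E) 0 X)
        = Real.exp (-β * H' X) := by
    intro X
    rw [hH]
    rfl
  have h1 := hmp.integral_comp' F
  simp_rw [hFe] at h1
  have h2 : Integrable F (μ.prod (Measure.pi fun _ : Fin N => μ)) := by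
    have h3 := hmp.integrable_comp_emb (g := F) (MeasurableEquiv.measurableEmbedding _)
    refine h3.1 ?_
    refine hi'.congr (Eventually.of_forall fun X => ?_)
    exact (hFe X).symm
  rw [h1, integral_prod_symm F h2, ← integral_const_mul]
  refine integral_mono_ae (hi.const_mul _) h2.integral_prod_right ?_
  filter_upwards [h2.prod_left_ae] with Y hY
  have h4 : ∀ x, Real.exp (-β * H Y) * (Real.exp (-β * M) * (1 - β * (D x Y - M))) ≤ F (x, Y) := by
    intro x
    have h5 : F (x, Y) = Real.exp (-β * H Y) * Real.exp (-β * D x Y) := by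
      rw [hF]
      simp only
      rw [← Real.exp_add]
      congr 1
      ring
    rw [h5]
    refine mul_le_mul_of_nonneg_left ?_ (Real.exp_pos _).le
    have h6 : Real.exp (-β * D x Y) = Real.exp (-β * M) * Real.exp (-β * (D x Y - M)) := by
      rw [← Real.exp_add]
      congr 1
      ring
    rw [h6]
    refine mul_le_mul_of_nonneg_left ?_ (Real.exp_pos _).le
    have := Real.add_one_le_exp (-β * (D x Y - M))
    linarith
  have h7 : Integrable
      (fun x => Real.exp (-β * H Y) * (Real.exp (-β * M) * (1 - β * (D x Y - M)))) μ := by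
    refine Integrable.const_mul ?_ _
    refine Integrable.const_mul ?_ _
    refine Integrable.sub (integrable_const _) ?_
    exact ((hD Y).sub (integrable_const _)).const_mul _
  have h8 : ∫ x, Real.exp (-β * H Y) * (Real.exp (-β * M) * (1 - β * (D x Y - M))) ∂μ
      = Real.exp (-β * H Y) * (Real.exp (-β * M) *
        (μ.real univ - β * ((∫ x, D x Y ∂μ) - M * μ.real univ))) := by
    rw [integral_const_mul, integral_const_mul]
    have h9 : ∫ x, (1 - β * (D x Y - M)) ∂μ = ∫ x, ((1 + β * M) - β * D x Y) ∂μ := by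
      refine integral_congr_ae (Eventually.of_forall fun x => ?_)
      simp only
      ring
    rw [h9, integral_sub (integrable_const _) ((hD Y).const_mul _), integral_const_mul,
      integral_const, smul_eq_mul]
    ring
  calc μ.real univ * Real.exp (-β * M) * Real.exp (-β * H Y)
      = Real.exp (-β * H Y) * (Real.exp (-β * M) * μ.real univ) := by ring
    _ ≤ Real.exp (-β * H Y) * (Real.exp (-β * M) *
        (μ.real univ - β * ((∫ x, D x Y ∂μ) - M * μ.real univ))) := by
        refine mul_le_mul_of_nonneg_left ?_ (Real.exp_pos _).le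
        refine mul_le_mul_of_nonneg_left ?_ (Real.exp_pos _).le
        have := hM Y
        nlinarith
    _ = _ := h8.symm
    _ ≤ ∫ x, F (x, Y) ∂μ := integral_mono h7 hY h4

/-- Removal of a particle. -/
lemma removal {N : ℕ} {β : ℝ} (hβ : 0 < β) (H' : (Fin (N + 1) → E) → ℝ) (H : (Fin N → E) → ℝ)
    (C : ℝ)
    (hC : ∀ᵐ X ∂(Measure.pi fun _ : Fin (N + 1) => μ),
      ∑ i, H (del i X) ≤ ((N : ℝ) + 1) * (H' X + C))
    (hi' : Integrable (fun X => Real.exp (-β * H' X)) (Measure.pi fun _ : Fin (N + 1) => μ))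
    (hi : Integrable (fun X => Real.exp (-β * H X)) (Measure.pi fun _ : Fin N => μ)) :
    ∫ X, Real.exp (-β * H' X) ∂(Measure.pi fun _ : Fin (N + 1) => μ)
      ≤ Real.exp (β * C) * μ.real univ *
        ∫ Y, Real.exp (-β * H Y) ∂(Measure.pi fun _ : Fin N => μ) := by
  have hN : (0 : ℝ) < (N : ℝ) + 1 := by positivity
  have h1 : ∀ᵐ X ∂(Measure.pi fun _ : Fin (N + 1) => μ), Real.exp (-β * H' X)
      ≤ Real.exp (β * C) * ∑ i : Fin (N + 1), ((N : ℝ) + 1)⁻¹ * Real.exp (-β * H (del i X)) := by
    filter_upwards [hC] with X hX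
    have h2 := convexOn_exp.map_sum_le (t := (Finset.univ : Finset (Fin (N + 1))))
      (w := fun _ => ((N : ℝ) + 1)⁻¹) (p := fun i => -β * H (del i X))
      (fun _ _ => by positivity) (by
        rw [Finset.sum_const, Finset.card_univ, Fintype.card_fin, nsmul_eq_mul]
        push_cast
        field_simp) (fun _ _ => mem_univ _)
    simp only [smul_eq_mul] at h2
    refine le_trans ?_ (mul_le_mul_of_nonneg_left h2 (Real.exp_pos _).le)
    rw [← Real.exp_add, Real.exp_le_exp]
    have h3 : ∑ i : Fin (N + 1), ((N : ℝ) + 1)⁻¹ * (-β * H (del i X))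
        = -β * (((N : ℝ) + 1)⁻¹ * ∑ i : Fin (N + 1), H (del i X)) := by
      rw [Finset.mul_sum, Finset.mul_sum]
      refine Finset.sum_congr rfl fun i _ => ?_
      ring
    rw [h3]
    have h4 : ((N : ℝ) + 1)⁻¹ * ∑ i : Fin (N + 1), H (del i X) ≤ H' X + C := by
      rw [inv_mul_le_iff₀ hN]
      exact hX
    nlinarith
  have hint : Integrable (fun X => Real.exp (β * C) *
      ∑ i : Fin (N + 1), ((N : ℝ) + 1)⁻¹ * Real.exp (-β * H (del i X)))
      (Measure.pi fun _ : Fin (N + 1) => μ) := by
    refine Integrable.const_mul ?_ _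
    refine integrable_finsetSum _ fun i _ => ?_
    refine Integrable.const_mul ?_ _
    exact integrable_del μ i hi
  refine (integral_mono_ae hi' hint h1).trans (le_of_eq ?_)
  rw [integral_const_mul, integral_finsetSum]
  · have h5 : ∀ i : Fin (N + 1), ∫ X, ((N : ℝ) + 1)⁻¹ * Real.exp (-β * H (del i X))
        ∂(Measure.pi fun _ : Fin (N + 1) => μ)
        = ((N : ℝ) + 1)⁻¹ * (μ.real univ *
          ∫ Y, Real.exp (-β * H Y) ∂(Measure.pi fun _ : Fin N => μ)) := by
      intro i
      rw [integral_const_mul]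
      congr 1
      exact int_del μ i (fun Y => Real.exp (-β * H Y))
    rw [Finset.sum_congr rfl fun i _ => h5 i, Finset.sum_const, Finset.card_univ,
      Fintype.card_fin, nsmul_eq_mul]
    push_cast
    field_simp
  · intro i _
    exact (integrable_del μ i hi).const_mul _

end Pool.Agent.X181.JE
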