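import Pool.Agent.X181.JE.A
import Pool.Agent.X181.JE.B

/-!
# Insertion, removal and enlargement for jellium with a short-range potential in a ball
-/

set_option autoImplicit false

noncomputable section

namespace Pool.Agent.X181.JE

open MeasureTheory Metric Set Filter Topology
open scoped ENNReal Pointwise

/-- total energy in the ball of radius `R` with background density `κ` -/
def En (v : E3 → ℝ) (κ R : ℝ) {N : ℕ} (X : Fin N → E3) : ℝ :=
  jelliumU κ (ball 0 R) X + pairV v X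

/-- pair function -/
def wf (v : E3 → ℝ) (z : E3) : ℝ := ‖z‖⁻¹ + v z

lemma En_eq (v : E3 → ℝ) (κ R : ℝ) {N : ℕ} (X : Fin N → E3) :
    En v κ R X = pr (fun i j => wf v (X i - X j)) - κ * ∑ i, phi (ball 0 R) (X i)
      + 1 / 2 * κ ^ 2 * Wb R := by
  unfold En jelliumU pairV pr wf Wb
  simp_rw [Finset.sum_add_distrib]
  ring

/-- configuration space of the ball -/
def Cf (R : ℝ) (N : ℕ) : Set (Fin N → E3) := Set.univ.pi fun _ => ball (0 : E3) R

/-- unnormalised partition function -/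
def I (v : E3 → ℝ) (β κ R : ℝ) (N : ℕ) : ℝ := ∫ X in Cf R N, Real.exp (-β * En v κ R X)

lemma restrict_Cf (R : ℝ) (N : ℕ) :
    (volume : Measure (Fin N → E3)).restrict (Cf R N)
      = Measure.pi fun _ => (volume : Measure E3).restrict (ball 0 R) :=
  Measure.restrict_pi_pi _ _

lemma measurableSet_Cf (R : ℝ) (N : ℕ) : MeasurableSet (Cf R N) :=
  MeasurableSet.univ_pi fun _ => measurableSet_ball

lemma real_univ (R : ℝ) : ((volume : Measure E3).restrict (ball 0 R)).real univ = Vb R := by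
  simp [Vb, Measure.real]

section

variable {v : E3 → ℝ} (hv : Integrable v volume)

include hv in
lemma aesm_wf {N : ℕ} {i j : Fin N} (hij : i ≠ j) :
    AEStronglyMeasurable (fun X : Fin N → E3 => wf v (X i - X j)) volume := by
  unfold wf
  refine AEStronglyMeasurable.add ?_ ?_
  · exact (by fun_prop : Measurable (fun X : Fin N → E3 => ‖X i - X j‖⁻¹)).aestronglyMeasurable
  · exact hv.aestronglyMeasurable.comp_quasiMeasurePreserving (map_sub_ac hij)

include hv in
lemma aesm_En (κ R : ℝ) (N : ℕ) :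
    AEStronglyMeasurable (fun X : Fin N → E3 => En v κ R X) volume := by
  simp_rw [En_eq]
  refine AEStronglyMeasurable.add (AEStronglyMeasurable.sub ?_ ?_) aestronglyMeasurable_const
  · unfold pr
    refine Finset.aestronglyMeasurable_fun_sum _ fun i _ => ?_
    refine Finset.aestronglyMeasurable_fun_sum _ fun j hj => ?_
    exact aesm_wf hv (Finset.mem_Ioi.1 hj).ne
  · refine Measurable.aestronglyMeasurable ?_
    refine Measurable.const_mul ?_ _
    refine Finset.measurable_fun_sum _ fun i _ => ?_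
    exact (measurable_phi _).comp (measurable_pi_apply i)

include hv in
lemma integrable_exp (β : ℝ) (hβ : 0 < β) (κ R : ℝ) (N : ℕ) (b : ℝ)
    (hb : ∀ X : Fin N → E3, (∀ i, X i ∈ ball (0 : E3) R) → Function.Injective X →
      -b ≤ En v κ R X) :
    IntegrableOn (fun X : Fin N → E3 => Real.exp (-β * En v κ R X)) (Cf R N) volume := by
  have hfin : IsFiniteMeasure ((volume : Measure (Fin N → E3)).restrict (Cf R N)) := by
    rw [restrict_Cf]
    have : IsFiniteMeasure ((volume : Measure E3).restrict (ball 0 R)) :=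
      ⟨by rw [Measure.restrict_apply_univ]; exact measure_ball_lt_top⟩
    infer_instance
  refine Integrable.of_bound (C := Real.exp (β * b)) ?_ ?_
  · refine Real.continuous_exp.comp_aestronglyMeasurable ?_
    exact ((aesm_En hv κ R N).const_mul _).restrict
  · filter_upwards [ae_restrict_mem (measurableSet_Cf R N),
      ae_restrict_of_ae (ae_inj N)] with X hX hinj
    rw [Real.norm_of_nonneg (Real.exp_pos _).le, Real.exp_le_exp]
    have := hb X (fun i => hX i (mem_univ i)) hinj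
    nlinarith

end

/-- bookkeeping for insertion -/
def Dn (v : E3 → ℝ) (κ κ' R : ℝ) {N : ℕ} (x : E3) (Y : Fin N → E3) : ℝ :=
  (∑ j, wf v (x - Y j)) - κ' * phi (ball 0 R) x - (κ' - κ) * ∑ j, phi (ball 0 R) (Y j)
    + 1 / 2 * (κ' ^ 2 - κ ^ 2) * Wb R

lemma En_insert {v : E3 → ℝ} (hev : ∀ x, v (-x) = v x) (κ κ' R : ℝ) {N : ℕ}
    (X : Fin (N + 1) → E3) :
    En v κ' R X = En v κ R (del 0 X) + Dn v κ κ' R (X 0) (del 0 X) := by
  have hs : ∀ i j : Fin (N + 1), wf v (X i - X j) = wf v (X j - X i) := by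
    intro i j
    unfold wf
    rw [norm_sub_rev, ← hev (X i - X j), neg_sub]
  have h1 := pr_removeNth (fun i j => wf v (X i - X j)) hs 0
  have h2 : ∑ k, wf v (X 0 - X k) = wf v (X 0 - X 0) + ∑ j, wf v (X 0 - del 0 X j) :=
    Fin.sum_univ_succAbove _ 0
  have h3 : ∑ k, phi (ball 0 R) (X k) = phi (ball 0 R) (X 0) + ∑ j, phi (ball 0 R) (del 0 X j) :=
    Fin.sum_univ_succAbove _ 0
  have h4 : pr (fun j k => wf v (del 0 X j - del 0 X k))
      = pr (fun i j => wf v (X i - X j)) - (∑ k, wf v (X 0 - X k) - wf v (X 0 - X 0)) := h1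
  rw [En_eq, En_eq, Dn, h3, h4, h2]
  ring

lemma integrable_Dn {v : E3 → ℝ} (hv : Integrable v volume) (κ κ' R : ℝ) {N : ℕ}
    (Y : Fin N → E3) :
    IntegrableOn (fun x => Dn v κ κ' R x Y) (ball 0 R) volume := by
  unfold Dn
  refine Integrable.add (Integrable.sub (Integrable.sub ?_ ?_) ?_) ?_
  · refine integrable_finsetSum _ fun j _ => ?_
    unfold wf
    refine Integrable.add ?_ ?_
    · have := integrableOn_inv (ball_fin R) (Y j)
      simp_rw [norm_sub_rev (Y j)] at this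
      exact this
    · exact (hv.comp_sub_right (Y j)).integrableOn
  · exact (integrableOn_phi (ball_fin R) R).const_mul _
  · exact integrableOn_const (ball_fin R)
  · exact integrableOn_const (ball_fin R)

lemma int4 {S P : E3 → ℝ} {R : ℝ} (hS : IntegrableOn S (ball 0 R) volume)
    (hP : IntegrableOn P (ball 0 R) volume) (k c₁ c₂ : ℝ) :
    ∫ x in ball (0 : E3) R, (S x - k * P x - c₁ + c₂)
      = (∫ x in ball (0 : E3) R, S x) - k * (∫ x in ball (0 : E3) R, P x)
        - c₁ * Vb R + c₂ * Vb R := by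
  have h1 : (fun x => S x - k * P x - c₁ + c₂) = fun x => (S x - k * P x) + (c₂ - c₁) := by
    funext x
    ring
  have hP' : IntegrableOn (fun x => k * P x) (ball 0 R) volume := hP.const_mul k
  have hSP : IntegrableOn (fun x => S x - k * P x) (ball 0 R) volume := hS.sub hP'
  rw [h1, integral_add hSP (integrableOn_const (ball_fin R)), integral_sub hS hP',
    integral_const_mul, setIntegral_const, smul_eq_mul]
  have h7 : volume.real (ball (0 : E3) R) = Vb R := rfl
  rw [h7]
  ring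

lemma integral_Dn_le {v : E3 → ℝ} (hv : Integrable v volume) {R : ℝ} (hR : 0 < R) {N : ℕ}
    (Y : Fin N → E3) :
    ∫ x in ball (0 : E3) R, Dn v (N / Vb R) ((N + 1) / Vb R) R x Y
      ≤ (N / Vb R * ∫ z, |v z|) * Vb R := by
  have hV := Vb_pos hR
  have hinv : ∀ j, IntegrableOn (fun x => ‖x - Y j‖⁻¹) (ball 0 R) volume := by
    intro j
    have := integrableOn_inv (ball_fin R) (Y j)
    simp_rw [norm_sub_rev (Y j)] at this
    exact this
  have hvj : ∀ j, IntegrableOn (fun x => v (x - Y j)) (ball 0 R) volume := fun j =>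
    (hv.comp_sub_right (Y j)).integrableOn
  have h1 : ∀ j, ∫ x in ball (0 : E3) R, wf v (x - Y j)
      ≤ phi (ball 0 R) (Y j) + ∫ z, |v z| := by
    intro j
    unfold wf
    rw [integral_add (hinv j) (hvj j)]
    have h2 : ∫ x in ball (0 : E3) R, ‖x - Y j‖⁻¹ = phi (ball 0 R) (Y j) := by
      unfold phi
      simp_rw [norm_sub_rev]
    rw [h2]
    have h3 : ∫ x in ball (0 : E3) R, v (x - Y j) ≤ ∫ x, |v (x - Y j)| := by
      refine (le_abs_self _).trans ?_
      refine (abs_integral_le_integral_abs).trans ?_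
      exact setIntegral_le_integral (hv.comp_sub_right (Y j)).abs
        (Eventually.of_forall fun _ => abs_nonneg _)
    have h4 : ∫ x, |v (x - Y j)| = ∫ z, |v z| :=
      integral_sub_right_eq_self (fun z => |v z|) (Y j)
    linarith
  have hwf : ∀ j, IntegrableOn (fun x => wf v (x - Y j)) (ball 0 R) volume := fun j =>
    (hinv j).add (hvj j)
  have hsum : IntegrableOn (fun x => ∑ j, wf v (x - Y j)) (ball 0 R) volume :=
    integrable_finsetSum _ fun j _ => hwf j
  have hphi := (integrableOn_phi (ball_fin R) R)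
  unfold Dn
  rw [int4 hsum hphi, integral_finsetSum _ (fun j _ => hwf j)]
  have h5 : ∑ j, ∫ x in ball (0 : E3) R, wf v (x - Y j)
      ≤ ∑ j, (phi (ball 0 R) (Y j) + ∫ z, |v z|) := Finset.sum_le_sum fun j _ => h1 j
  rw [Finset.sum_add_distrib, Finset.sum_const, Finset.card_univ, Fintype.card_fin,
    nsmul_eq_mul] at h5
  have h6 : ∫ x in ball (0 : E3) R, phi (ball 0 R) x = Wb R := rfl
  rw [h6]
  have hW := Wb_nonneg R
  have e1 : ((((N : ℝ) + 1) / Vb R - N / Vb R) * ∑ j, phi (ball 0 R) (Y j)) * Vb R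
      = ∑ j, phi (ball 0 R) (Y j) := by
    field_simp
    ring
  have e2 : (1 / 2 * ((((N : ℝ) + 1) / Vb R) ^ 2 - (N / Vb R) ^ 2) * Wb R) * Vb R
      - ((N : ℝ) + 1) / Vb R * Wb R = - (Wb R / (2 * Vb R)) := by
    field_simp
    ring
  have e3 : (N / Vb R * ∫ z, |v z|) * Vb R = N * ∫ z, |v z| := by
    field_simp
  have e4 : 0 ≤ Wb R / (2 * Vb R) := by positivity
  rw [e1, e3]
  linarith

lemma sum_En_del {v : E3 → ℝ} (hev : ∀ x, v (-x) = v x) {R : ℝ} (hR : 0 < R) {N : ℕ}
    (X : Fin (N + 1) → E3) (B : ℝ)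
    (hB : -B * (N + 1) ≤ En v ((N + 1) / Vb R) R X) :
    ∑ i, En v (N / Vb R) R (del i X) ≤
      ((N : ℝ) + 1) * (En v ((N + 1) / Vb R) R X + (2 * B + Wb R / (2 * Vb R ^ 2))) := by
  have hV := Vb_pos hR
  have hs : ∀ i j : Fin (N + 1), wf v (X i - X j) = wf v (X j - X i) := by
    intro i j
    unfold wf
    rw [norm_sub_rev, ← hev (X i - X j), neg_sub]
  have h1 := sum_pr_removeNth (fun i j => wf v (X i - X j)) hs
  have h2 := sum_sum_removeNth (fun i => phi (ball 0 R) (X i))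
  have h3 : ∑ i : Fin (N + 1), En v (N / Vb R) R (del i X)
      = ((N : ℝ) - 1) * pr (fun i j => wf v (X i - X j))
        - N / Vb R * (N * ∑ i, phi (ball 0 R) (X i))
        + (N + 1) * (1 / 2 * (N / Vb R) ^ 2 * Wb R) := by
    rw [← h1, ← h2]
    simp_rw [En_eq]
    rw [Finset.sum_add_distrib, Finset.sum_sub_distrib, Finset.sum_const, Finset.card_univ,
      Fintype.card_fin, nsmul_eq_mul, ← Finset.mul_sum]
    push_cast
    rfl
  have hΦ : 0 ≤ ∑ i, phi (ball 0 R) (X i) := Finset.sum_nonneg fun i _ => phi_nonneg _ _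
  have h4 := En_eq v ((N + 1) / Vb R) R X
  have h5 : ((N : ℝ) + 1) * (En v ((N + 1) / Vb R) R X + (2 * B + Wb R / (2 * Vb R ^ 2)))
      - ∑ i, En v (N / Vb R) R (del i X)
      = 2 * (En v ((N + 1) / Vb R) R X + B * (N + 1)) + (∑ i, phi (ball 0 R) (X i)) / Vb R := by
    rw [h3, h4]
    field_simp
    ring
  have h6 : 0 ≤ (∑ i, phi (ball 0 R) (X i)) / Vb R := by positivity
  linarith

/-- the logarithm of the partition function in a ball -/
def F (v : E3 → ℝ) (β R : ℝ) (N : ℕ) : ℝ :=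
  Real.log ((N.factorial : ℝ)⁻¹ * I v β (N / Vb R) R N)

section

variable {v : E3 → ℝ} (hv : Integrable v volume) (hev : ∀ x, v (-x) = v x)
  {B : ℝ → ℝ}
  (hB : ∀ R : ℝ, 0 < R → ∀ N : ℕ, 0 < N → ∀ X : Fin N → E3, (∀ i, X i ∈ ball (0 : E3) R) →
    Function.Injective X → -B (N / Vb R) * N ≤ En v (N / Vb R) R X)
  {β : ℝ} (hβ : 0 < β)

include hB in
lemma stab0 {R : ℝ} (hR : 0 < R) (N : ℕ) (X : Fin N → E3) (hX : ∀ i, X i ∈ ball (0 : E3) R)
    (hi : Function.Injective X) : -(B (N / Vb R) * N) ≤ En v (N / Vb R) R X := by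
  rcases Nat.eq_zero_or_pos N with h | h
  · subst h
    simp [En_eq, pr]
  · have := hB R hR N h X hX hi
    linarith

include hv hB hβ in
lemma int_h {R : ℝ} (hR : 0 < R) (N : ℕ) :
    IntegrableOn (fun X : Fin N → E3 => Real.exp (-β * En v (N / Vb R) R X)) (Cf R N) volume :=
  integrable_exp hv β hβ _ R N _ (stab0 hB hR N)

include hv hB hβ in
lemma I_pos {R : ℝ} (hR : 0 < R) (N : ℕ) : 0 < I v β (N / Vb R) R N := by
  have h := int_h hv hB hβ hR N
  have hne : NeZero ((volume : Measure (Fin N → E3)).restrict (Cf R N)) := by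
    refine ⟨fun h0 => ?_⟩
    have h1 := congrArg (fun m => m univ) h0
    rw [restrict_Cf] at h1
    simp only [Measure.pi_univ, Measure.restrict_apply_univ, Finset.prod_const, Finset.card_univ,
      Fintype.card_fin, Measure.coe_zero, Pi.zero_apply] at h1
    have h2 : volume (ball (0 : E3) R) ≠ 0 := (measure_ball_pos _ _ hR).ne'
    exact pow_ne_zero N h2 h1
  exact integral_exp_pos h

lemma finRes (R : ℝ) : IsFiniteMeasure ((volume : Measure E3).restrict (ball 0 R)) :=
  ⟨by rw [Measure.restrict_apply_univ]; exact measure_ball_lt_top⟩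

include hv hev hB hβ in
lemma I_lower {R : ℝ} (hR : 0 < R) (N : ℕ) :
    Vb R * Real.exp (-β * (N / Vb R * ∫ z, |v z|)) * I v β (N / Vb R) R N
      ≤ I v β (((N + 1 : ℕ) : ℝ) / Vb R) R (N + 1) := by
  have := finRes R
  have h1 := int_h hv hB hβ hR N
  have h2 := int_h hv hB hβ hR (N + 1)
  unfold IntegrableOn at h1 h2
  unfold I
  rw [restrict_Cf] at h1 h2 ⊢
  rw [restrict_Cf]
  have h3 := insertion ((volume : Measure E3).restrict (ball 0 R)) hβ
    (fun X => En v (((N + 1 : ℕ) : ℝ) / Vb R) R X) (fun Y => En v (N / Vb R) R Y)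
    (fun x Y => Dn v (N / Vb R) (((N + 1 : ℕ) : ℝ) / Vb R) R x Y)
    (fun X => En_insert hev _ _ R X) h2 h1 (fun Y => integrable_Dn hv _ _ R Y)
    (N / Vb R * ∫ z, |v z|) (fun Y => by
      rw [real_univ]
      have := integral_Dn_le hv hR Y
      push_cast
      exact this)
  rw [real_univ] at h3
  exact h3

include hv hev hB hβ in
lemma I_upper {R : ℝ} (hR : 0 < R) (N : ℕ) :
    I v β (((N + 1 : ℕ) : ℝ) / Vb R) R (N + 1) ≤
      Real.exp (β * (2 * B (((N + 1 : ℕ) : ℝ) / Vb R) + Wb R / (2 * Vb R ^ 2))) * Vb R *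
        I v β (N / Vb R) R N := by
  have := finRes R
  have h1 := int_h hv hB hβ hR N
  have h2 := int_h hv hB hβ hR (N + 1)
  have h0 : ∀ᵐ X ∂((volume : Measure (Fin (N + 1) → E3)).restrict (Cf R (N + 1))),
      ∑ i, En v (N / Vb R) R (del i X) ≤
      ((N : ℝ) + 1) * (En v (((N + 1 : ℕ) : ℝ) / Vb R) R X +
        (2 * B (((N + 1 : ℕ) : ℝ) / Vb R) + Wb R / (2 * Vb R ^ 2))) := by
    filter_upwards [ae_restrict_mem (measurableSet_Cf R (N + 1)),
      ae_restrict_of_ae (ae_inj (N + 1))] with X hX hinj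
    have h4 := stab0 hB hR (N + 1) X (fun i => hX i (mem_univ i)) hinj
    push_cast at h4 ⊢
    exact sum_En_del hev hR X (B (((N : ℝ) + 1) / Vb R)) (by linarith)
  unfold IntegrableOn at h1 h2
  unfold I
  rw [restrict_Cf] at h0 h1 h2
  rw [restrict_Cf, restrict_Cf]
  have h3 := removal ((volume : Measure E3).restrict (ball 0 R)) hβ
    (fun X => En v (((N + 1 : ℕ) : ℝ) / Vb R) R X) (fun Y => En v (N / Vb R) R Y)
    (2 * B (((N + 1 : ℕ) : ℝ) / Vb R) + Wb R / (2 * Vb R ^ 2)) h0 h2 h1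
  rw [real_univ] at h3
  exact h3

include hv hev hB hβ in
lemma F_lower {R : ℝ} (hR : 0 < R) (N : ℕ) :
    F v β R N + Real.log (Vb R / (N + 1)) - β * (N / Vb R * ∫ z, |v z|) ≤ F v β R (N + 1) := by
  have hV := Vb_pos hR
  have h0 := I_pos hv hB hβ hR N
  have h1 := I_pos hv hB hβ hR (N + 1)
  have h2 := I_lower hv hev hB hβ hR N
  have hf : (0 : ℝ) < N.factorial := by exact_mod_cast N.factorial_pos
  have hN : (0 : ℝ) < (N : ℝ) + 1 := by positivity
  unfold F
  have h3 := Real.log_le_log (by positivity) h2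
  rw [Real.log_mul (by positivity) h0.ne', Real.log_mul hV.ne' (Real.exp_pos _).ne',
    Real.log_exp] at h3
  rw [Real.log_mul (by positivity) h0.ne', Real.log_mul (by positivity) h1.ne',
    Real.log_inv, Real.log_inv, Nat.factorial_succ, Nat.cast_mul,
    Real.log_mul (by positivity) hf.ne', Real.log_div hV.ne' hN.ne']
  push_cast at h3 ⊢
  linarith

include hv hev hB hβ in
lemma F_upper {R : ℝ} (hR : 0 < R) (N : ℕ) :
    F v β R (N + 1) ≤ F v β R N + Real.log (Vb R / (N + 1))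
      + β * (2 * B (((N + 1 : ℕ) : ℝ) / Vb R) + Wb R / (2 * Vb R ^ 2)) := by
  have hV := Vb_pos hR
  have h0 := I_pos hv hB hβ hR N
  have h1 := I_pos hv hB hβ hR (N + 1)
  have h2 := I_upper hv hev hB hβ hR N
  have hf : (0 : ℝ) < N.factorial := by exact_mod_cast N.factorial_pos
  have hN : (0 : ℝ) < (N : ℝ) + 1 := by positivity
  unfold F
  have h3 := Real.log_le_log h1 h2
  rw [Real.log_mul (by positivity) h0.ne', Real.log_mul (Real.exp_pos _).ne' hV.ne',
    Real.log_exp] at h3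
  rw [Real.log_mul (by positivity) h0.ne', Real.log_mul (by positivity) h1.ne',
    Real.log_inv, Real.log_inv, Nat.factorial_succ, Nat.cast_mul,
    Real.log_mul (by positivity) hf.ne', Real.log_div hV.ne' hN.ne']
  push_cast at h3 ⊢
  linarith

include hv hB hβ in
lemma F_enlarge {R₁ R₂ : ℝ} (h1 : 0 < R₁) (h12 : R₁ ≤ R₂) (N : ℕ) (S : ℝ)
    (hS : ∀ x, phi (ball (0 : E3) R₁) x ≤ S) :
    F v β R₁ N - β * ((N / Vb R₁ - N / Vb R₂) * (N * S)) ≤ F v β R₂ N := by
  have h2 : 0 < R₂ := h1.trans_le h12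
  have hV1 := Vb_pos h1
  have hV2 := Vb_pos h2
  have hsub : ball (0 : E3) R₁ ⊆ ball 0 R₂ := ball_subset_ball h12
  have hCf : Cf R₁ N ⊆ Cf R₂ N := Set.pi_mono fun _ _ => hsub
  have hV12 : Vb R₁ ≤ Vb R₂ := measureReal_mono hsub (ball_fin R₂)
  have hI1 := I_pos hv hB hβ h1 N
  have hI2 := I_pos hv hB hβ h2 N
  have hκ : (N : ℝ) / Vb R₂ ≤ N / Vb R₁ := by
    gcongr
  have hκ0 : 0 ≤ (N : ℝ) / Vb R₂ := by positivity
  -- energy comparison
  have key : ∀ X : Fin N → E3, En v (N / Vb R₂) R₂ X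
      ≤ En v (N / Vb R₁) R₁ X + (N / Vb R₁ - N / Vb R₂) * (N * S) := by
    intro X
    rw [En_eq, En_eq]
    have h3 : ∑ i, phi (ball 0 R₁) (X i) ≤ ∑ i, phi (ball 0 R₂) (X i) :=
      Finset.sum_le_sum fun i _ => phi_mono hsub (ball_fin R₂) _
    have h4 : ∑ i, phi (ball 0 R₁) (X i) ≤ N * S := by
      have := Finset.sum_le_sum (s := (Finset.univ : Finset (Fin N))) fun i _ => hS (X i)
      rw [Finset.sum_const, Finset.card_univ, Fintype.card_fin, nsmul_eq_mul] at this
      exact this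
    have h5 : (N / Vb R₂) ^ 2 * Wb R₂ ≤ (N / Vb R₁) ^ 2 * Wb R₁ := by
      have := Wb_ratio h1 h12
      have h6 := mul_le_mul_of_nonneg_left this (sq_nonneg (N : ℝ))
      calc ((N : ℝ) / Vb R₂) ^ 2 * Wb R₂ = (N : ℝ) ^ 2 * (Wb R₂ / Vb R₂ ^ 2) := by
            field_simp
        _ ≤ _ := h6
        _ = _ := by field_simp
    have h7 : N / Vb R₂ * ∑ i, phi (ball 0 R₁) (X i) ≤ N / Vb R₂ * ∑ i, phi (ball 0 R₂) (X i) :=
      mul_le_mul_of_nonneg_left h3 hκ0
    have h8 : (N / Vb R₁ - N / Vb R₂) * ∑ i, phi (ball 0 R₁) (X i)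
        ≤ (N / Vb R₁ - N / Vb R₂) * (N * S) :=
      mul_le_mul_of_nonneg_left h4 (by linarith)
    linarith
  have hle : Real.exp (-β * ((N / Vb R₁ - N / Vb R₂) * (N * S))) * I v β (N / Vb R₁) R₁ N
      ≤ I v β (N / Vb R₂) R₂ N := by
    have i1 := int_h hv hB hβ h1 N
    have i2 := int_h hv hB hβ h2 N
    have h9 : ∫ X in Cf R₁ N, Real.exp (-β * En v (N / Vb R₂) R₂ X)
        ≤ I v β (N / Vb R₂) R₂ N :=
      setIntegral_mono_set i2 (Eventually.of_forall fun _ => (Real.exp_pos _).le)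
        (Eventually.of_forall hCf)
    refine le_trans ?_ h9
    unfold I
    rw [← integral_const_mul]
    refine integral_mono (i1.const_mul _) (i2.mono_set hCf) fun X => ?_
    simp only
    rw [← Real.exp_add, Real.exp_le_exp]
    have := key X
    nlinarith
  have hf : (0 : ℝ) < N.factorial := by exact_mod_cast N.factorial_pos
  have h3 := Real.log_le_log (by positivity) hle
  rw [Real.log_mul (Real.exp_pos _).ne' hI1.ne', Real.log_exp] at h3
  unfold F
  rw [Real.log_mul (by positivity) hI1.ne', Real.log_mul (by positivity) hI2.ne']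
  linarith

end

end Pool.Agent.X181.JE
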