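import Pool.Agent.X181.JE.C

/-!
# Local Lipschitz continuity of the limiting free energy
-/

set_option autoImplicit false

noncomputable section

namespace Pool.Agent.X181.JE

open MeasureTheory Metric Set Filter Topology
open scoped ENNReal Pointwise

/-- radius of the ball `Λ_j` with `ρ |Λ_j| = j` -/
def radius (ρ : ℝ) (j : ℕ) : ℝ := (3 * j / (4 * Real.pi * ρ)) ^ (1 / 3 : ℝ)

lemma radius_pos {ρ : ℝ} (hρ : 0 < ρ) {j : ℕ} (hj : 0 < j) : 0 < radius ρ j := by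
  unfold radius
  have : (0 : ℝ) < j := by exact_mod_cast hj
  have := Real.pi_pos
  positivity

lemma radius_nonneg {ρ : ℝ} (hρ : 0 < ρ) (j : ℕ) : 0 ≤ radius ρ j := by
  unfold radius
  have := Real.pi_pos
  positivity

lemma Vb_formula {r : ℝ} (hr : 0 ≤ r) : Vb r = r ^ 3 * (Real.pi * 4 / 3) := by
  unfold Vb
  rw [Measure.real, EuclideanSpace.volume_ball_fin_three, ENNReal.toReal_mul, ENNReal.toReal_pow,
    ENNReal.toReal_ofReal hr, ENNReal.toReal_ofReal (by have := Real.pi_pos; positivity)]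

lemma radius_cube {ρ : ℝ} (hρ : 0 < ρ) (j : ℕ) :
    radius ρ j ^ 3 = 3 * j / (4 * Real.pi * ρ) := by
  unfold radius
  have := Real.pi_pos
  rw [← Real.rpow_natCast, ← Real.rpow_mul (by positivity)]
  norm_num

lemma Vb_radius {ρ : ℝ} (hρ : 0 < ρ) (j : ℕ) : Vb (radius ρ j) = j / ρ := by
  rw [Vb_formula (radius_nonneg hρ j), radius_cube hρ]
  have := Real.pi_pos
  field_simp

lemma radius_le {ρ ρ' : ℝ} (hρ : 0 < ρ) (hρ' : 0 < ρ') {j k : ℕ} (h : (j : ℝ) / ρ ≤ k / ρ') :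
    radius ρ j ≤ radius ρ' k := by
  have h1 : radius ρ j ^ 3 ≤ radius ρ' k ^ 3 := by
    rw [radius_cube hρ, radius_cube hρ']
    have := Real.pi_pos
    have e1 : 3 * (j : ℝ) / (4 * Real.pi * ρ) = 3 / (4 * Real.pi) * (j / ρ) := by field_simp
    have e2 : 3 * (k : ℝ) / (4 * Real.pi * ρ') = 3 / (4 * Real.pi) * (k / ρ') := by field_simp
    rw [e1, e2]
    exact mul_le_mul_of_nonneg_left h (by positivity)
  exact le_of_pow_le_pow_left₀ (by norm_num) (radius_nonneg hρ' k) h1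

section

variable {v : E3 → ℝ} (hv : Integrable v volume) (hev : ∀ x, v (-x) = v x)
  {B : ℝ → ℝ}
  (hB : ∀ R : ℝ, 0 < R → ∀ N : ℕ, 0 < N → ∀ X : Fin N → E3, (∀ i, X i ∈ ball (0 : E3) R) →
    Function.Injective X → -B (N / Vb R) * N ≤ En v (N / Vb R) R X)
  {β : ℝ} (hβ : 0 < β)

/-- the local Lipschitz constant -/
def K1 (v : E3 → ℝ) (β a b K : ℝ) : ℝ :=
  |Real.log b| + |Real.log a| + β * (b * (∫ z, |v z|) + 2 * K + (kc 1 + 1) / 2)

include hv hev hB hβ in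
lemma F_step {a b K : ℝ} (ha : 0 < a) (hab : a ≤ b) (hK0 : 0 ≤ K)
    (hK : ∀ t, a ≤ t → t ≤ b → |B t| ≤ K) {R : ℝ} (hR : 0 < R) (hV1 : 1 ≤ Vb R) (n : ℕ)
    (h1 : a ≤ ((n + 1 : ℕ) : ℝ) / Vb R) (h2 : ((n + 1 : ℕ) : ℝ) / Vb R ≤ b) :
    |F v β R (n + 1) - F v β R n| ≤ K1 v β a b K := by
  have hV := Vb_pos hR
  have hl := F_lower hv hev hB hβ hR n
  have hu := F_upper hv hev hB hβ hR n
  have hn : (0 : ℝ) < (n : ℝ) + 1 := by positivity
  have hbpos : 0 < b := ha.trans_le hab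
  push_cast at h1 h2 hu
  have hlog : Real.log (Vb R / (n + 1)) = - Real.log (((n : ℝ) + 1) / Vb R) := by
    rw [← Real.log_inv, inv_div]
  have hl1 : Real.log a ≤ Real.log (((n : ℝ) + 1) / Vb R) := Real.log_le_log ha h1
  have hl2 : Real.log (((n : ℝ) + 1) / Vb R) ≤ Real.log b :=
    Real.log_le_log (by positivity) h2
  have hA : 0 ≤ ∫ z, |v z| := integral_nonneg fun _ => abs_nonneg _
  have hk1 := kc_nonneg 1
  have hnb : (n : ℝ) / Vb R ≤ b := by
    refine le_trans ?_ h2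
    gcongr
    linarith
  have h3 : β * (n / Vb R * ∫ z, |v z|) ≤ β * (b * ∫ z, |v z|) := by
    gcongr
  have h4 : B (((n : ℝ) + 1) / Vb R) ≤ K := (le_abs_self _).trans (hK _ h1 h2)
  have h5 : Wb R / (2 * Vb R ^ 2) ≤ (kc 1 + 1) / 2 := by
    rw [div_le_div_iff₀ (by positivity) (by norm_num)]
    have h6 := Wb_le (r := R)
    nlinarith [mul_nonneg hk1 (by nlinarith : (0:ℝ) ≤ Vb R * (Vb R - 1))]
  have h7 : β * (2 * B (((n : ℝ) + 1) / Vb R) + Wb R / (2 * Vb R ^ 2))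
      ≤ β * (2 * K + (kc 1 + 1) / 2) := by
    gcongr
  have h8 : 0 ≤ β * (b * ∫ z, |v z|) := by positivity
  have h9 : 0 ≤ β * (2 * K + (kc 1 + 1) / 2) := by positivity
  have h10 := neg_abs_le (Real.log a)
  have h11 := le_abs_self (Real.log b)
  have h12 := abs_nonneg (Real.log a)
  have h13 := abs_nonneg (Real.log b)
  unfold K1
  rw [abs_le]
  constructor <;> · rw [hlog] at hl hu; linarith

include hv hev hB hβ in
lemma F_chain {a b K : ℝ} (ha : 0 < a) (hab : a ≤ b) (hK0 : 0 ≤ K)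
    (hK : ∀ t, a ≤ t → t ≤ b → |B t| ≤ K) {R : ℝ} (hR : 0 < R) (hV1 : 1 ≤ Vb R) (m n : ℕ)
    (hmn : m ≤ n) (h1 : a ≤ (m : ℝ) / Vb R) (h2 : (n : ℝ) / Vb R ≤ b) :
    |F v β R n - F v β R m| ≤ K1 v β a b K * ((n : ℝ) - m) := by
  have hV := Vb_pos hR
  induction n, hmn using Nat.le_induction with
  | base => simp
  | succ n hmn ih =>
    have h3 : (n : ℝ) / Vb R ≤ b := by
      refine le_trans ?_ h2
      gcongr
      linarith
    have h4 := ih h3
    have h5 : a ≤ ((n + 1 : ℕ) : ℝ) / Vb R := by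
      refine h1.trans ?_
      gcongr
      have : (m : ℝ) ≤ n := by exact_mod_cast hmn
      linarith
    have h6 := F_step hv hev hB hβ ha hab hK0 hK hR hV1 n h5 h2
    have h7 := abs_sub_le (F v β R (n + 1)) (F v β R n) (F v β R m)
    push_cast
    nlinarith

include hv hev hB hβ in
lemma F_chain' {a b K : ℝ} (ha : 0 < a) (hab : a ≤ b) (hK0 : 0 ≤ K)
    (hK : ∀ t, a ≤ t → t ≤ b → |B t| ≤ K) {R : ℝ} (hR : 0 < R) (hV1 : 1 ≤ Vb R) (m n : ℕ)
    (hm : a ≤ (m : ℝ) / Vb R) (hm' : (m : ℝ) / Vb R ≤ b)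
    (hn : a ≤ (n : ℝ) / Vb R) (hn' : (n : ℝ) / Vb R ≤ b) :
    |F v β R n - F v β R m| ≤ K1 v β a b K * |(n : ℝ) - m| := by
  rcases le_total m n with h | h
  · have h1 := F_chain hv hev hB hβ ha hab hK0 hK hR hV1 m n h hm hn'
    have : (0:ℝ) ≤ (n : ℝ) - m := by
      have : (m : ℝ) ≤ n := by exact_mod_cast h
      linarith
    rw [abs_of_nonneg this]
    exact h1
  · have h1 := F_chain hv hev hB hβ ha hab hK0 hK hR hV1 n m h hn hm'
    have : (0:ℝ) ≤ (m : ℝ) - n := by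
      have : (n : ℝ) ≤ m := by exact_mod_cast h
      linarith
    rw [abs_sub_comm, abs_sub_comm (n : ℝ), abs_of_nonneg this]
    exact h1

include hv hev hB hβ in
/-- one step of the comparison: finite volume -/
lemma finite_compare {a b K : ℝ} (ha : 0 < a) (hab : a ≤ b) (hK0 : 0 ≤ K)
    (hK : ∀ t, a ≤ t → t ≤ b → |B t| ≤ K) {ρ ρ' : ℝ} (hρa : a ≤ ρ) (hρb : ρ ≤ b)
    (hρa' : a ≤ ρ') {η : ℝ} (hη : 0 < η) (j : ℕ) (hj : 0 < j)
    (hV1 : 1 ≤ (j : ℝ) / ρ) (hjb : ρ' + 1 / ((j : ℝ) / ρ) ≤ b)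
    (hS : ∀ x, phi (ball (0 : E3) (radius ρ j)) x ≤ η * ((j : ℝ) / ρ)) :
    F v β (radius ρ j) j - K1 v β a b K * (|ρ' - ρ| * (j / ρ) + 1)
        - β * (η * (ρ' * (j / ρ) + 1))
      ≤ F v β (radius ρ' ⌈ρ' / ρ * j⌉₊) ⌈ρ' / ρ * j⌉₊ := by
  have hρ : 0 < ρ := ha.trans_le hρa
  have hρ' : 0 < ρ' := ha.trans_le hρa'
  have hj' : (0 : ℝ) < j := by exact_mod_cast hj
  set N := ⌈ρ' / ρ * j⌉₊ with hN
  set V := (j : ℝ) / ρ with hVdef
  have hVpos : 0 < V := by positivity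
  have hVb : Vb (radius ρ j) = V := Vb_radius hρ j
  have hN1 : ρ' * V ≤ N := by
    have := Nat.le_ceil (ρ' / ρ * (j : ℝ))
    rw [hVdef]
    calc ρ' * (j / ρ) = ρ' / ρ * j := by ring
      _ ≤ _ := this
  have hN2 : (N : ℝ) < ρ' * V + 1 := by
    have := Nat.ceil_lt_add_one (a := ρ' / ρ * (j : ℝ)) (by positivity)
    rw [hVdef]
    calc (N : ℝ) < ρ' / ρ * j + 1 := this
      _ = _ := by ring
  have hNpos : 0 < N := Nat.ceil_pos.2 (by positivity)
  have hNV1 : ρ' ≤ N / V := by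
    rw [le_div_iff₀ hVpos]
    exact hN1
  have hNV2 : N / V ≤ ρ' + 1 / V := by
    rw [div_le_iff₀ hVpos]
    have : (ρ' + 1 / V) * V = ρ' * V + 1 := by field_simp
    rw [this]
    exact hN2.le
  have hR1 : 0 < radius ρ j := radius_pos hρ hj
  have hjV : (j : ℝ) / V = ρ := by
    rw [hVdef]
    field_simp
  have hchain := F_chain' hv hev hB hβ ha hab hK0 hK hR1 (by rw [hVb]; exact hV1) j N
    (by rw [hVb, hjV]; exact hρa) (by rw [hVb, hjV]; exact hρb)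
    (by rw [hVb]; exact hρa'.trans hNV1) (by rw [hVb]; exact hNV2.trans hjb)
  have hdiff : |(N : ℝ) - j| ≤ |ρ' - ρ| * V + 1 := by
    have e1 : (N : ℝ) - j = (N - ρ' * V) + (ρ' - ρ) * V := by
      rw [hVdef]
      field_simp
      ring
    rw [e1]
    refine (abs_add_le _ _).trans ?_
    rw [abs_mul, abs_of_pos hVpos, abs_of_nonneg (by linarith : (0:ℝ) ≤ N - ρ' * V)]
    linarith
  have hKnn : 0 ≤ K1 v β a b K := by
    unfold K1
    have hA : 0 ≤ ∫ z, |v z| := integral_nonneg fun _ => abs_nonneg _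
    have hk1 := kc_nonneg 1
    have hb : 0 < b := ha.trans_le hab
    positivity
  have hVb' : Vb (radius ρ' N) = N / ρ' := Vb_radius hρ' N
  have hle : radius ρ j ≤ radius ρ' N := by
    refine radius_le hρ hρ' ?_
    rw [le_div_iff₀ hρ']
    calc (j : ℝ) / ρ * ρ' = ρ' * V := by rw [hVdef]; ring
      _ ≤ N := hN1
  have henl := F_enlarge hv hB hβ hR1 hle N (η * V) hS
  rw [hVb, hVb'] at henl
  have hNN : (N : ℝ) / (N / ρ') = ρ' := by
    have : (0 : ℝ) < N := by exact_mod_cast hNpos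
    field_simp
  rw [hNN] at henl
  have herr : (N / V - ρ') * (N * (η * V)) ≤ η * (ρ' * V + 1) := by
    have h1 : (N / V - ρ') * (N * (η * V)) = η * ((N - ρ' * V) * N) := by
      field_simp
    rw [h1]
    have h2 : ((N : ℝ) - ρ' * V) * N ≤ 1 * (ρ' * V + 1) := by
      have : (0 : ℝ) ≤ N := Nat.cast_nonneg _
      have : 0 ≤ ρ' * V := by positivity
      exact mul_le_mul (by linarith) hN2.le (by positivity) (by norm_num)
    nlinarith
  have h3 := (abs_le.1 hchain).1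
  have h4 : K1 v β a b K * |(N : ℝ) - j| ≤ K1 v β a b K * (|ρ' - ρ| * V + 1) :=
    mul_le_mul_of_nonneg_left hdiff hKnn
  have h5 := mul_le_mul_of_nonneg_left herr hβ.le
  linarith

include hv hev hB hβ in
lemma limit_compare {a b K : ℝ} (ha : 0 < a) (hab : a ≤ b) (hK0 : 0 ≤ K)
    (hK : ∀ t, a ≤ t → t ≤ b → |B t| ≤ K) {g : ℝ → ℝ}
    (hg : ∀ ρ : ℝ, 0 < ρ → Tendsto (fun j : ℕ => (Vb (radius ρ j))⁻¹ * F v β (radius ρ j) j)
      atTop (𝓝 (g ρ)))
    {ρ ρ' : ℝ} (hρa : a ≤ ρ) (hρb : ρ ≤ b) (hρa' : a ≤ ρ') (hρb' : ρ' < b) :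
    g ρ - K1 v β a b K * |ρ' - ρ| ≤ g ρ' := by
  have hρ : 0 < ρ := ha.trans_le hρa
  have hρ' : 0 < ρ' := ha.trans_le hρa'
  have main : ∀ η : ℝ, 0 < η → g ρ - K1 v β a b K * |ρ' - ρ| - β * η * ρ' ≤ g ρ' := by
    intro η hη
    obtain ⟨V₀, hV₀⟩ := phi_small hη
    -- volumes tend to infinity
    have hVt : Tendsto (fun j : ℕ => (j : ℝ) / ρ) atTop atTop :=
      tendsto_natCast_atTop_atTop.atTop_div_const hρ
    have hVi : Tendsto (fun j : ℕ => ((j : ℝ) / ρ)⁻¹) atTop (𝓝 0) := tendsto_inv_atTop_zero.comp hVt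
    have hNt : Tendsto (fun j : ℕ => ⌈ρ' / ρ * (j : ℝ)⌉₊) atTop atTop := by
      refine tendsto_nat_ceil_atTop.comp ?_
      exact tendsto_natCast_atTop_atTop.const_mul_atTop (by positivity)
    have hg' := (hg ρ' hρ').comp hNt
    have hratio : Tendsto (fun j : ℕ => ((⌈ρ' / ρ * (j : ℝ)⌉₊ : ℝ) / j) * (ρ / ρ')) atTop
        (𝓝 1) := by
      have h1 := (tendsto_nat_ceil_mul_div_atTop (R := ℝ) (a := ρ' / ρ) (by positivity)).comp
        (tendsto_natCast_atTop_atTop (R := ℝ))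
      have h2 := h1.mul_const (ρ / ρ')
      have h3 : ρ' / ρ * (ρ / ρ') = 1 := by field_simp
      rw [h3] at h2
      exact h2
    have hR := hratio.mul hg'
    rw [one_mul] at hR
    have hL : Tendsto (fun j : ℕ => (Vb (radius ρ j))⁻¹ * F v β (radius ρ j) j
        - K1 v β a b K * (|ρ' - ρ| + ((j : ℝ) / ρ)⁻¹)
        - β * (η * (ρ' + ((j : ℝ) / ρ)⁻¹))) atTop
        (𝓝 (g ρ - K1 v β a b K * (|ρ' - ρ| + 0) - β * (η * (ρ' + 0)))) := by
      refine Tendsto.sub (Tendsto.sub (hg ρ hρ) ?_) ?_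
      · exact (tendsto_const_nhds.add hVi).const_mul _
      · exact ((tendsto_const_nhds.add hVi).const_mul _).const_mul _
    have hfin : g ρ - K1 v β a b K * (|ρ' - ρ| + 0) - β * (η * (ρ' + 0)) ≤ g ρ' := by
      refine le_of_tendsto_of_tendsto hL hR ?_
      have e1 := hVt.eventually_ge_atTop 1
      have e2 := hVt.eventually_ge_atTop V₀
      have e3 := hVt.eventually_ge_atTop (1 / (b - ρ'))
      filter_upwards [e1, e2, e3, eventually_gt_atTop 0] with j h1 h2 h3 hj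
      have hj' : (0 : ℝ) < j := by exact_mod_cast hj
      set V := (j : ℝ) / ρ with hVdef
      have hVpos : 0 < V := by positivity
      have hbρ : 0 < b - ρ' := by linarith
      have h4 : ρ' + 1 / V ≤ b := by
        have : 1 / V ≤ b - ρ' := by
          rw [div_le_iff₀ hVpos]
          rw [div_le_iff₀ hbρ] at h3
          linarith
        linarith
      have hVb : Vb (radius ρ j) = V := Vb_radius hρ j
      have h5 := finite_compare hv hev hB hβ ha hab hK0 hK hρa hρb hρa' hη j hj h1 h4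
        (fun x => by
          have := hV₀ (radius ρ j) (by rw [hVb]; exact h2) x
          rwa [hVb] at this)
      set N := ⌈ρ' / ρ * (j : ℝ)⌉₊ with hN
      have hNpos : 0 < N := Nat.ceil_pos.2 (by positivity)
      have hNpos' : (0 : ℝ) < N := by exact_mod_cast hNpos
      have hVb' : Vb (radius ρ' N) = N / ρ' := Vb_radius hρ' N
      have h6 : (N : ℝ) / j * (ρ / ρ') * ((Vb (radius ρ' N))⁻¹ * F v β (radius ρ' N) N)
          = V⁻¹ * F v β (radius ρ' N) N := by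
        rw [hVb', hVdef]
        field_simp
      have h7 : (N : ℝ) / j * (ρ / ρ') *
          ((fun j : ℕ => (Vb (radius ρ' j))⁻¹ * F v β (radius ρ' j) j) ∘
            fun j : ℕ => ⌈ρ' / ρ * (j : ℝ)⌉₊) j = V⁻¹ * F v β (radius ρ' N) N := h6
      rw [h7, hVb]
      rw [← hVdef] at h5
      have h8 := mul_le_mul_of_nonneg_left h5 (inv_nonneg.2 hVpos.le)
      refine le_trans (le_of_eq ?_) h8
      have h10 : ∀ V' G K' D' : ℝ, V' ≠ 0 →
          V'⁻¹ * G - K' * (D' + V'⁻¹) - β * (η * (ρ' + V'⁻¹))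
            = V'⁻¹ * (G - K' * (D' * V' + 1) - β * (η * (ρ' * V' + 1))) := by
        intro V' G K' D' hV'
        field_simp
      exact h10 V _ _ _ hVpos.ne'
    linarith
  -- let η → 0
  have hlim : Tendsto (fun η : ℝ => g ρ - K1 v β a b K * |ρ' - ρ| - β * η * ρ') (𝓝[>] 0)
      (𝓝 (g ρ - K1 v β a b K * |ρ' - ρ| - β * 0 * ρ')) := by
    have hc : Continuous (fun η : ℝ => g ρ - K1 v β a b K * |ρ' - ρ| - β * η * ρ') := by
      fun_prop
    exact (hc.tendsto 0).mono_left nhdsWithin_le_nhds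
  have h9 := le_of_tendsto hlim (by
    filter_upwards [self_mem_nhdsWithin] with η hη
    exact main η hη)
  linarith

include hv hev hB hβ in
theorem core (hBloc : ∀ ρ₀ : ℝ, 0 < ρ₀ → ∃ K, ∀ᶠ ρ in 𝓝 ρ₀, |B ρ| ≤ K) {g : ℝ → ℝ}
    (hg : ∀ ρ : ℝ, 0 < ρ → Tendsto (fun j : ℕ => (Vb (radius ρ j))⁻¹ * F v β (radius ρ j) j)
      atTop (𝓝 (g ρ))) :
    LocallyLipschitzOn (Ioi 0) g := by
  intro ρ₀ hρ₀
  obtain ⟨K, hK⟩ := hBloc ρ₀ hρ₀
  rw [Metric.eventually_nhds_iff] at hK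
  obtain ⟨ε, hε, hK⟩ := hK
  have hρ₀' : (0 : ℝ) < ρ₀ := hρ₀
  set δ := min (ε / 2) (ρ₀ / 2) with hδ
  have hδpos : 0 < δ := by positivity
  have hδ1 : δ ≤ ε / 2 := min_le_left _ _
  have hδ2 : δ ≤ ρ₀ / 2 := min_le_right _ _
  have hK' : ∀ t, ρ₀ - δ ≤ t → t ≤ ρ₀ + δ → |B t| ≤ K := by
    intro t h1 h2
    refine hK ?_
    rw [Real.dist_eq, abs_lt]
    constructor <;> linarith
  have hK0 : 0 ≤ K := (abs_nonneg _).trans (hK' ρ₀ (by linarith) (by linarith))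
  have ha : 0 < ρ₀ - δ := by linarith
  have hab : ρ₀ - δ ≤ ρ₀ + δ := by linarith
  refine ⟨Real.toNNReal (K1 v β (ρ₀ - δ) (ρ₀ + δ) K), Ioo (ρ₀ - δ) (ρ₀ + δ),
    mem_nhdsWithin_of_mem_nhds (Ioo_mem_nhds (by linarith) (by linarith)), ?_⟩
  refine LipschitzOnWith.of_le_add_mul' _ fun x hx y hy => ?_
  have := limit_compare hv hev hB hβ ha hab hK0 hK' hg (ρ := x) (ρ' := y) hx.1.le hx.2.le
    hy.1.le hy.2
  rw [Real.dist_eq, abs_sub_comm]
  linarith

end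

end Pool.Agent.X181.JE
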